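import Pool.Agent.Lib.MP_7c536e_co.Main

namespace Pool.Agent.Results.MP_7c536e_co.Counterexample

open Pool.Agent.Lib.MP_7c536e_co

/-- The conjecture `MOF_k(G) ≥ ⌈n/(k+1)⌉` is false: there are a connected graph `G` on `n` vertices
and a positive integer `k` with `MOF_k(G) < ⌈n/(k+1)⌉`. -/
theorem result : ∃ (n : ℕ) (G : SimpleGraph (Fin n)) (k M : ℕ),
    G.Connected ∧ 0 < k ∧ IsMOF G k M ∧ (M : ℤ) < ⌈(n : ℚ) / ((k : ℚ) + 1)⌉ := by
  obtain ⟨M, hM, hle⟩ := exists_MOF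
  refine ⟨15, G15, 1, M, G15_connected, one_pos, hM, ?_⟩
  have h8 : ⌈((15 : ℕ) : ℚ) / (((1 : ℕ) : ℚ) + 1)⌉ = 8 := by
    rw [Int.ceil_eq_iff]; norm_num
  rw [h8]
  omega

end Pool.Agent.Results.MP_7c536e_co.Counterexample
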